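import Pool.Agent.H242.LD.Stm

set_option autoImplicit false

/-!
# LD-AVOID: a point whose orbit avoids the strips from some time on belongs to `closure (Ws a)`
-/

namespace Pool.Agent.H740.LD

open Real Set Metric Filter Topology
open Pool.Agent.TH705.SM (T2 S Si)
open Pool.Agent.H242.TM
open Pool.Agent.H242.LD

theorem ld_AVOID : S_AVOID := by
  intro a p n₀ ha h
  by_contra hp
  have hI : Island a (Dom a p) := island_comp ha hp
  obtain ⟨q, hq, hD⟩ := hI.periodic
  obtain ⟨e, he, hW⟩ := hI.not_wd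
  apply hW
  have ha0 : 0 < |a| := by linarith
  obtain ⟨k, hk⟩ := pow_unbounded_of_one_lt (3 / (4 * |a|) / e) (show (1:ℝ) < 3 by norm_num)
  have hle : k + n₀ ≤ (k + n₀) * q := Nat.le_mul_of_pos_right _ hq
  obtain ⟨j, hj⟩ : ∃ j, j = (k + n₀) * q - k := ⟨_, rfl⟩
  have hkj : k + j = (k + n₀) * q := by omega
  have hjn : n₀ ≤ j := by omega
  have hmem : (S a)^[k] ((S a)^[j] p) ∈ Dom a p := by
    rw [← Function.iterate_add_apply, hkj]
    have h1 : (S a)^[(k + n₀) * q] p ∈ (S a)^[(k + n₀) * q] '' Dom a p :=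
      mem_image_of_mem _ (mem_connectedComponentIn hp)
    rw [image_mul hD] at h1
    exact h1
  have hdom : Dom a p = Dom a ((S a)^[k] ((S a)^[j] p)) := connectedComponentIn_eq hmem
  have hs := smallBy_visit ha (y := (S a)^[j] p) (k := k)
    (connectedComponentIn_subset _ _ hmem) (fun n _ => by
      rw [← Function.iterate_add_apply]
      exact h _ (by omega))
  rw [← hdom] at hs
  intro C hC hCA r hr r' hr'
  refine (hs C hC hCA r hr r' hr').1.trans ?_
  rw [div_le_iff₀ (by positivity)]
  rw [div_lt_iff₀ he] at hk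
  linarith

end Pool.Agent.H740.LD
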